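import Pool.Agent.Work.MP_db9399_kr.Interface

/-!
# MP_db9399, H-version: pieces of type K (owner helper68)

As `MP_db9399_kr`, with a precoloured matching (`MP_db9399_hr.HX`, every precoloured edge has an end
outside the spots, so its colour is fixed by the outside stage). `W` = vertices with prescribed own
colour `c0`. The vertices of `W` in the spots are treated as reserved vertices (`U`, own colour `cR`):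
PROMH colours all inner edges at the vertices of `U` (in ALL spots), afterwards they are vertices
outside the spots. So `UH = ∅`, `EH = ⊥` everywhere.

DEAD colours of a spot `Y`: colours `b` such that `9 / 10` of the vertices of `Y` have a neighbour
`w ∈ W`, `w ∉ Y`, of own colour `b`; at most `2 - |Y ∩ W|` (`spr`). They are not used in `Y`. If a short
spot `Y` has two dead colours and these are exactly the colours missing at an odd number of vertices,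
there is no extension; PARH changes one edge between `Y` and another spot; if there is no such edge,
the outside stage has to exclude this case (`HP`).

Chain: SSE3 (light-light edges), PARH (parities), PROMH (from PROM1H), FINRH (from VMIX2, FIN2;
VMIX2 from VSHORT2 from CHO2: copies with the exact parity condition `|Fy ∩ Q0| ≤ |Q0 \ Fy|`).
-/

set_option autoImplicit false

namespace Pool.Agent.Work.MP_db9399_kh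

open Finset Classical
open Pool.Agent.Work.MP_db9399_all (nb)
open Pool.Agent.Work.MP_db9399_dn (IsMat Tot)
open Pool.Agent.Work.MP_db9399_bg (HPre)
open Pool.Agent.Work.MP_db9399_sl (InS Same Gout Gss Gin Gex Out Vert odd)
open Pool.Agent.Work.MP_db9399_sw (shs avl Gxh Grh Lgt fst wt wl)
open Pool.Agent.Work.MP_db9399_sx (Grp ubl)
open Pool.Agent.Work.MP_db9399_kr (Ys2 cc2 SpR)

universe u

/-- the exact parity condition: `D` = colours which are not used, `Q` = colours missing at an odd number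
of vertices -/
def ParK {K : Type} (D Q : Finset K) : Prop := (D ∩ Q).card ≤ (Q \ D).card

section defs
variable {V : Type u} [Fintype V] {k : ℕ}

/-- the spots which have fewer than `d` vertices outside `U` -/
noncomputable def shU (d : ℕ) (Ys : Finset (Finset V)) (U : Finset V) : Finset (Finset V) :=
  Ys.filter (fun Y => (Y \ U).card < d)

/-- the dead colours of the spot `Y` -/
noncomputable def Dead (G : SimpleGraph V) (W : Finset V) (c0 : V → Fin k)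
    (K0 : Finset (Fin k)) (Y : Finset V) : Finset (Fin k) :=
  K0.filter (fun b => 9 * Y.card ≤ 10 * (ubl G W c0 Y b).card)

/-- `SHH` with the exact parity condition. -/
structure SHH2 (x η θ T0 y0 y1 B : ℝ) (G EH : SimpleGraph V) (d : ℕ) (Ys Sm : Finset (Finset V))
    (UH Gd Hs : Finset V) (c0 c : V → Fin k) (E F0 : V → Finset (Fin k)) (K0 : Finset (Fin k))
    (Fy : Finset V → Finset (Fin k)) (Mt : SimpleGraph V) (pn : Finset V → ℕ) : Prop where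
  deg : ∀ v, (nb G v).card ≤ d
  dis : ∀ Y ∈ Ys, ∀ Y' ∈ Ys, Y ≠ Y' → Disjoint Y Y'
  low : ∀ Y ∈ Ys, (1 - θ) * d ≤ (Y.card : ℝ)
  inn : ∀ Y ∈ Ys, ∀ v ∈ Y, (1 - θ) * d ≤ ((nb G v ∩ Y).card : ℝ)
  sum : ∀ Y ∈ Ys, wt G d Y ≤ η * d * Y.card
  uh2 : ∀ Y ∈ Ys, (Y ∩ UH).card ≤ 2
  F0K : ∀ v ∈ UH, InS Ys v → F0 v ⊆ K0
  F0d : ∀ v ∈ UH, InS Ys v → (F0 v).card + (nb (Gin G EH Ys) v).card = d + 1
  F0E : ∀ v ∈ UH, InS Ys v → E v ∩ K0 ⊆ F0 v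
  F0c : ∀ v ∈ UH, InS Ys v → c0 v ∈ K0 → c0 v ∈ F0 v
  FyK : ∀ Y ∈ shs d Ys, Fy Y ⊆ K0
  Fyc : ∀ Y ∈ shs d Ys, (Fy Y).card + Y.card ≤ d + 2 + pn Y
  Fyu : ∀ Y ∈ shs d Ys, ((Fy Y).card : ℝ) ≤ 10 * η * d
  par : ∀ Y ∈ shs d Ys, ((Fy Y).filter
    (fun b => Odd (Y.filter (fun v => b ∉ fst UH F0 E v)).card)).card ≤
      2 * pn Y + ((K0 \ (Fy Y ∪ (Y ∩ UH).image c0)).filter
        (fun b => Odd (Y.filter (fun v => b ∉ fst UH F0 E v)).card)).card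
  mat : IsMat Mt
  mta : ∀ v w, Mt.Adj v w → Same (shs d Ys) v w ∧ ¬ G.Adj v w ∧ v ∉ UH ∧ v ∉ Gd
  mtn : ∀ Y ∈ shs d Ys, (Y.filter (fun v => (nb Mt v).Nonempty)).card = 2 * pn Y
  pnu : ∀ Y ∈ shs d Ys, (pn Y : ℝ) ≤ 10 * η * d
  big : ∀ Y ∈ shs d Ys, Y ∉ Sm → ∀ b ∈ K0, b ∉ Fy Y → b ∉ (Y ∩ UH).image c0 →
    x * d ≤ ((avl G Ys UH c E Y b).card : ℝ)
  sml : ∀ Y ∈ Sm, Y ∈ shs d Ys ∧ wl G d Hs Y ≤ T0 * Y.card ∧ ((Y ∩ Gd).card : ℝ) ≤ y1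
  hsc : ∀ Y ∈ Sm, 10 ^ 4 * (Y ∩ Hs).card ≤ Y.card
  gds : ∀ Y ∈ Sm, ∀ b ∈ K0, b ∉ Fy Y → b ∉ (Y ∩ UH).image c0 →
    y0 ≤ ((avl G Ys UH c E Y b ∩ Gd).card : ℝ)
  gdd : ∀ v ∈ Gd, (∃ Y ∈ Sm, v ∈ Y) ∧ ((nb G v).filter (fun w => ¬ Same Ys v w)).card ≤ B
  gdi : ∀ v ∈ Gd, ∀ w ∈ Gd, ¬ (Gss G EH Ys).Adj v w
  gde : ∀ Y ∈ shs d Ys, ((∑ v ∈ Y, (nb (Gss G EH Ys) v ∩ Gd).card : ℕ) : ℝ) ≤
    x / 10 ^ 5 * y0 * Y.card

/-- Reserved vertices `U` (among them the vertices of `W` in the spots), own colours `cR`. -/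
structure RsH (η' : ℝ) (G : SimpleGraph V) (Ys : Finset (Finset V)) (d : ℕ) (U : Finset V)
    (cR cc : V → Fin k) (E : V → Finset (Fin k)) (K0 : Finset (Fin k)) : Prop where
  UY : ∀ y ∈ U, InS Ys y
  Uc : ∀ Y ∈ Ys, ((Y ∩ U).card : ℝ) ≤ η' * d
  Ui : ∀ Y ∈ Ys, ∀ y ∈ Y ∩ U, ∀ y' ∈ Y ∩ U, cR y = cR y' → y = y'
  Ua : ∀ y ∈ U, ∀ y' ∈ U, G.Adj y y' → cR y ≠ cR y'
  Uk : ∀ y ∈ U, cR y ∈ K0
  Uf : ∀ y ∈ U, cR y ∉ E y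
  Uo : ∀ y ∈ U, ∀ w, ¬ InS Ys w → G.Adj y w → cc w ≠ cR y

/-- The prescribed own colours and the own colours outside the spots. `ubl G W c0 Y b` = vertices of
`Y` with a neighbour in `W \ Y` of own colour `b`. -/
structure OwnH (ζ τ e : ℝ) (G : SimpleGraph V) (d : ℕ) (Ys : Finset (Finset V))
    (U W : Finset V) (c0 cR cc : V → Fin k) : Prop where
  spr : ∀ v, (insert v (nb G v) ∩ W).card ≤ 2
  WU : ∀ w ∈ W, InS Ys w → w ∈ U ∧ cR w = c0 w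
  Wc : ∀ w ∈ W, ¬ InS Ys w → cc w = c0 w
  US : ∀ y ∈ U, y ∈ W ∨ ∃ Y ∈ shU d Ys W, y ∈ Y
  abs : ∀ Y ∈ Ys, ∀ w, ¬ InS Ys w → ζ * d ≤ ((Y \ nb G w).card : ℝ)
  dif : ∀ Y ∈ shU d Ys W, ∀ w w', ¬ InS Ys w → ¬ InS Ys w' → w ∉ W → w' ∉ W → w ≠ w' →
    τ * d ≤ ((nb G w ∩ Y).card : ℝ) → τ * d ≤ ((nb G w' ∩ Y).card : ℝ) → cc w ≠ cc w'
  hub : ∀ Y ∈ shU d Ys W, ∀ w, ¬ InS Ys w → w ∉ W → τ * d ≤ ((nb G w ∩ Y).card : ℝ) →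
    ((ubl G W c0 Y (cc w)).card : ℝ) ≤ ζ / 4 * Y.card
  non : ∀ Y ∈ shU d Ys W, ∀ b, (∀ y ∈ Y ∩ U, cR y ≠ b) →
    ((∑ w ∈ univ.filter (fun w => ¬ InS Ys w ∧ w ∉ W ∧ cc w = b ∧
      ((nb G w ∩ Y).card : ℝ) < τ * d), (nb G w ∩ Y).card : ℕ) : ℝ) ≤ e * d
  Ub : ∀ Y ∈ shU d Ys W, ∀ b, (∀ y ∈ Y ∩ U, cR y ≠ b) →
    ((∑ y ∈ U.filter (fun y => y ∉ W ∧ y ∉ Y ∧ cR y = b), (nb G y ∩ Y).card : ℕ) : ℝ) ≤ e * d

end defs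

/-! ## Copies with the exact parity condition -/

/-- CHO2 (copy of `sw_helper54/CHO.lean`): `Stmt_CHO` with `|Fy ∩ Q0|` instead of `|Fy|` in the parity
condition. -/
def Stmt_CHO2 : Prop :=
  ∀ π : ℝ, 1 / 4 ≤ π → π < 1 / 3 → ∃ (θ δ1 : ℝ) (d0 : ℕ), 0 < θ ∧ θ ≤ 1 / 10 ^ 7 ∧ 0 < δ1 ∧
    ∀ {D : Type} (d m pn w2 : ℕ) (n : Fin 3 → ℕ) (K0 Fy cw Q0 Hv : Finset D)
      (P : Fin 3 → Finset D) (hi : D → Fin 3), d0 ≤ d → K0.card = d + 2 → cw.card ≤ w2 → w2 ≤ 2 →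
      n 0 + n 1 + n 2 + 2 * pn + w2 = m → m < d → (1 - θ) * d ≤ (m : ℝ) →
      (∀ i, |(n i : ℝ) - m / 3| ≤ δ1 * d) → Fy ⊆ K0 → Fy.card + m ≤ d + 2 + pn →
      (pn : ℝ) ≤ δ1 * d → ((Fy.card) : ℝ) ≤ δ1 * d → ((Hv.card) : ℝ) ≤ δ1 * d → Q0 ⊆ K0 →
      (Fy ∩ Q0).card ≤ 2 * pn + (Q0 \ (Fy ∪ cw)).card → (∀ i j, i ≠ j → Disjoint (P i) (P j)) →
      (∀ i, ((P i).card : ℝ) ≤ π * d + 1) →
      ∃ (U W : Finset D) (i0 : Fin 3) (K : Fin 3 → Finset D), Fy \ cw ⊆ U ∧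
        (∀ i j, i ≠ j → Disjoint (K i) (K j)) ∧ (∀ i, K i ⊆ K0 \ (U ∪ cw)) ∧
        (∀ i, (K i).card = n i + if i = i0 then pn else 0) ∧
        (∀ i, ∀ b ∈ K i, b ∈ Hv → hi b = i) ∧ (∀ i, ∀ b ∈ K i, b ∉ Hv → b ∉ P i) ∧
        W ⊆ K i0 \ Hv ∧ 10 ^ 4 * θ * d ≤ (W.card : ℝ) ∧
        (∀ b ∈ K0, b ∉ U → b ∉ cw → ∃ i, b ∈ K i) ∧
        ∀ Pc ⊆ W, Pc.card = pn → d + 2 ≤ m + (K0.filter (fun b =>
          (b ∉ Q0 ∧ (b ∈ U ∨ b ∈ Pc ∨ b ∈ cw)) ∨ (b ∈ Q0 ∧ b ∉ U ∧ b ∉ Pc ∧ b ∉ cw))).card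

/-- VSHORT2 (copy of `sw_helper39`, from LSB and CHO2): `Stmt_VSHORT` with `SHH2`. -/
def Stmt_VSHORT2 : Prop :=
  ∀ (δ π : ℝ), 0 < δ → δ ≤ 1 / 1000 → 1 / 4 ≤ π → π < 1 / 3 →
    ∃ (δ1 θ : ℝ), 0 < δ1 ∧ 0 < θ ∧ ∀ x : ℝ, 0 < x → x ≤ θ → ∃ (η : ℝ) (d0 : ℕ), 0 < η ∧
    ∀ {V : Type u} [Fintype V] {k : ℕ} (T0 y0 y1 B : ℝ) (G EH : SimpleGraph V) (d : ℕ)
      (Ys Sm : Finset (Finset V)) (UH Gd Hs : Finset V) (c0 tu c : V → Fin k) (t : V → V → Fin k)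
      (E F0 : V → Finset (Fin k)) (K0 : Finset (Fin k)) (C : Fin 3 → Finset (Fin k))
      (p : V → Fin 3) (a : V → Bool) (Z : Finset V) (Fy : Finset V → Finset (Fin k))
      (Mt : SimpleGraph V) (pn : Finset V → ℕ), d0 ≤ d → 1 ≤ T0 → 1 ≤ B → 1 ≤ y1 →
      10 ^ 9 * T0 ≤ x * y0 → 10 ^ 9 * (y1 * B) ≤ x * d → HPre G UH c0 EH tu →
      (∀ j, ((C j).card : ℝ) ≤ π * d + 1) →
      Out δ1 π G (Gex G Ys) ⊥ EH d Ys UH c0 tu c t E K0 C p a Z →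
      SHH2 x η θ T0 y0 y1 B G EH d Ys Sm UH Gd Hs c0 c E F0 K0 Fy Mt pn →
      ∃ (c' : V → Fin k) (Z' : Finset V),
        (∀ v, (InS (shs d Ys) v → v ∈ UH) → c' v = c v) ∧ Z ⊆ Z' ∧
        (∀ v ∈ Z', v ∉ Z → InS (shs d Ys) v) ∧
        (∀ Y ∈ shs d Ys, ((Y ∩ Z').card : ℝ) ≤ δ * d) ∧
        (∀ v, InS (shs d Ys) v → v ∉ UH → c' v ∈ K0 ∧ c' v ∉ E v ∧ (v ∉ Z' → c' v ∉ C (p v))) ∧
        (∀ v w, G.Adj v w → (InS Ys v → InS (shs d Ys) v ∨ v ∈ UH) →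
          (InS Ys w → InS (shs d Ys) w ∨ w ∈ UH) → c' v ≠ c' w) ∧
        (∀ Y ∈ shs d Ys, ∀ b, (Y.filter (fun v => v ∉ UH ∧ c' v = b)).card ≤ 2) ∧
        ∀ Y ∈ shs d Ys, (odd Y (fun v => if v ∈ UH then F0 v else insert (c' v) (E v)) K0).card ≤
          Y.card

/-- VMIX2 (copy of `sw_helper54/VMIX.lean`, from VSHORT2 and `sl.Stmt_VSEQ`). -/
def Stmt_VMIX2 : Prop :=
  ∀ (δ π : ℝ), 0 < δ → δ ≤ 1 / 1000 → 1 / 4 ≤ π → π < 1 / 3 →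
    ∃ (δ1 θ : ℝ), 0 < δ1 ∧ 0 < θ ∧ ∀ x : ℝ, 0 < x → x ≤ θ → ∃ (η : ℝ) (d0 : ℕ), 0 < η ∧
    ∀ {V : Type u} [Fintype V] {k : ℕ} (T0 y0 y1 B : ℝ) (G EH : SimpleGraph V) (d : ℕ)
      (Ys Sm : Finset (Finset V)) (UH Gd Hs : Finset V) (c0 tu c : V → Fin k) (t : V → V → Fin k)
      (E F0 : V → Finset (Fin k)) (K0 : Finset (Fin k)) (C : Fin 3 → Finset (Fin k))
      (p : V → Fin 3) (a : V → Bool) (Z : Finset V) (Fy : Finset V → Finset (Fin k))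
      (Mt : SimpleGraph V) (pn : Finset V → ℕ), d0 ≤ d → 1 ≤ T0 → 1 ≤ B → 1 ≤ y1 →
      10 ^ 9 * T0 ≤ x * y0 → 10 ^ 9 * (y1 * B) ≤ x * d → HPre G UH c0 EH tu →
      (∀ j, ((C j).card : ℝ) ≤ π * d + 1) →
      (∀ Y ∈ Ys, (Y.card : ℝ) ≤ (1 + θ) * d) →
      (∀ Y ∈ Ys, ∀ v ∈ Y, ((Y \ nb G v).card : ℝ) ≤ θ * d) →
      Out δ1 π G (Gex G Ys) ⊥ EH d Ys UH c0 tu c t E K0 C p a Z →
      SHH2 x η θ T0 y0 y1 B G EH d Ys Sm UH Gd Hs c0 c E F0 K0 Fy Mt pn →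
      ∃ (c' : V → Fin k) (Z' : Finset V) (F : V → Finset (Fin k)),
        (∀ v, ¬ InS Ys v → c' v = c v) ∧ Z ⊆ Z' ∧
        Vert δ G EH d Ys UH c0 tu c' E K0 C p Z' F

/-- FIN2 (copy of `sl_helper49/FIN.lean`, from LTS): `Stmt_FIN` without `UH`, `EH`, the colours of the
outer edges are kept. -/
def Stmt_FIN2 : Prop :=
  ∃ (δ π θ : ℝ) (d0 : ℕ), 0 < δ ∧ 1 / 4 ≤ π ∧ π < 1 / 3 ∧ 0 < θ ∧
    ∀ {V : Type u} [Fintype V] (G : SimpleGraph V) (d k : ℕ) (Ys : Finset (Finset V))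
      (c0 : V → Fin k) (tu : V → Fin k)
      (c c' : V → Fin k) (t : V → V → Fin k) (E F : V → Finset (Fin k)) (K0 : Finset (Fin k))
      (C : Fin 3 → Finset (Fin k)) (p : V → Fin 3) (a : V → Bool) (Z Z' : Finset V), d0 ≤ d →
      (∀ v, (nb G v).card ≤ d) → (∀ Y ∈ Ys, ∀ Y' ∈ Ys, Y ≠ Y' → Disjoint Y Y') →
      (∀ Y ∈ Ys, (1 - θ) * d ≤ (Y.card : ℝ) ∧ (Y.card : ℝ) ≤ (1 + θ) * d) →
      (∀ Y ∈ Ys, ∀ v ∈ Y, (1 - θ) * d ≤ ((nb G v ∩ Y).card : ℝ)) →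
      (∀ Y ∈ Ys, ∀ v ∈ Y, ((Y \ nb G v).card : ℝ) ≤ θ * d) →
      Out δ π G (Gex G Ys) ⊥ ⊥ d Ys ∅ c0 tu c t E K0 C p a Z →
      (∀ v, ¬ InS Ys v → c' v = c v) → Z ⊆ Z' →
      Vert δ G ⊥ d Ys ∅ c0 tu c' E K0 C p Z' F →
      ∃ t' : V → V → Fin k, Tot G c' t' ∧ ∀ v w, (Gex G Ys).Adj v w → t' v w = t v w

/-- FINRH (from VMIX2 and FIN2, compare `kr_helper68/FINR.lean`). -/
def Stmt_FINRH : Prop :=
  ∃ (π δ θ : ℝ), 1 / 4 ≤ π ∧ π < 1 / 3 ∧ 0 < δ ∧ 0 < θ ∧ θ ≤ 1 / 100 ∧ ∀ x : ℝ, 0 < x → x ≤ θ →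
    ∃ (η : ℝ) (d0 : ℕ), 0 < η ∧
    ∀ {V : Type u} [Fintype V] {k : ℕ} (G : SimpleGraph V) (d : ℕ)
      (Ys : Finset (Finset V)) (c0 tu cc : V → Fin k) (t : V → V → Fin k)
      (E : V → Finset (Fin k)) (K0 : Finset (Fin k)) (C : Fin 3 → Finset (Fin k)) (p : V → Fin 3)
      (a : V → Bool) (Z : Finset V) (Fy : Finset V → Finset (Fin k)), d0 ≤ d →
      SpR θ η G d Ys → (∀ j, ((C j).card : ℝ) ≤ π * d + 1) →
      Out δ π G (Gex G Ys) ⊥ ⊥ d Ys ∅ c0 tu cc t E K0 C p a Z →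
      (∀ Y ∈ shs d Ys, Fy Y ⊆ K0 ∧ (Fy Y).card + Y.card ≤ d + 2 ∧
        ((Fy Y).card : ℝ) ≤ 10 * η * d ∧ ParK (Fy Y) (odd Y E K0) ∧
        ∀ b ∈ K0, b ∉ Fy Y → x * d ≤ ((avl G Ys ∅ cc E Y b).card : ℝ)) →
      ∃ (c' : V → Fin k) (t3 : V → V → Fin k), Tot G c' t3 ∧
        (∀ v, ¬ InS Ys v → c' v = cc v) ∧ ∀ v w, (Gex G Ys).Adj v w → t3 v w = t v w

/-! ## Reserved vertices -/

/-- PROM1H: one spot of any size, compare `kr.Stmt_PROM1`, proof `kr_helper75`. `D` = dead colours.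
PROOF. `steps` of `kr_helper75` as it is. Parities (`par` for all `b ∈ K0`): the number of `v ∈ Y \ U`
where `b` is missing at the end is `N b + #{u : m u = b} + #{u : cR u = b}` modulo 2. The `m u` are
different and outside `D ∪ cR U`. Case A: all `m u` have `N b` even, `Q0` = the odd colours before,
`Q1` after: `Q1 \ (D ∪ cR U)` contains `m U` and `Q0 \ (D ∪ cR U)`, `Q1 ∩ D = Q0 ∩ D`,
`Q1 ∩ cR U = cR U \ Q0`, so the claim is equivalent to `|D ∩ Q0| ≤ |Q0 \ D|`. Case B: nearly all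
colours are odd. -/
def Stmt_PROM1H : Prop :=
  ∀ (δ π θ η' : ℝ), 0 < δ → δ ≤ 1 / 1000 → 0 < π → π < 1 / 3 → 0 < θ → θ ≤ 1 / 100 → 0 < η' →
    η' ≤ 1 / 1000 → ∃ d0 : ℕ,
    ∀ {V : Type u} [Fintype V] {k : ℕ} (G : SimpleGraph V) (d : ℕ) (Y U Z : Finset V)
      (E : V → Finset (Fin k)) (K0 D : Finset (Fin k)) (C : Fin 3 → Finset (Fin k)) (p : V → Fin 3)
      (cR : V → Fin k), d0 ≤ d → K0.card = d + 2 → (Y.card : ℝ) ≤ (1 + θ) * d →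
      (1 - θ) * d ≤ (Y.card : ℝ) →
      (∀ v ∈ Y, (1 - θ) * d ≤ ((nb G v ∩ Y).card : ℝ)) →
      (∀ v ∈ Y, (E v).card + (nb G v ∩ Y).card = d) → (∀ v ∈ Y, E v ⊆ K0) → U ⊆ Y →
      ((U.card : ℝ) ≤ η' * d) → (∀ u ∈ U, cR u ∈ K0 ∧ cR u ∉ E u) → Set.InjOn cR (U : Set V) →
      (∀ j, ((C j).card : ℝ) ≤ π * d + 1) → (((Y ∩ Z).card : ℝ) ≤ δ * d) →
      (∀ v ∈ Y, v ∉ Z → Disjoint (E v) (C (p v))) → (∀ i j, i ≠ j → Disjoint (C i) (C j)) →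
      (∀ b, (((Y.filter (fun v => v ∉ Z ∧ b ∈ E v)).card : ℝ) ≤ δ * d)) →
      (∀ i, ((Y.filter (fun v => p v = i)).card : ℝ) ≤ Y.card / 3 + 2 * δ * d) →
      D ⊆ K0 → D.card ≤ 2 → Disjoint D (U.image cR) → ParK D (odd Y E K0) →
      ∃ s : V → V → Fin k, (∀ u ∈ U, ∀ v ∈ U, G.Adj u v → s u v = s v u) ∧
        (∀ u ∈ U, ∀ v ∈ Y, G.Adj u v → s u v ∈ K0 ∧ s u v ∉ E u ∧ s u v ∉ E v ∧ s u v ≠ cR u ∧
          (v ∉ U → v ∉ Z → s u v ∉ C (p v))) ∧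
        (∀ u ∈ U, Set.InjOn (s u) ((nb G u ∩ Y : Finset V) : Set V)) ∧
        (∀ v ∈ Y, v ∉ U → Set.InjOn (fun u => s u v) ((nb G v ∩ U : Finset V) : Set V)) ∧
        ParK (D ∪ U.image cR) (K0.filter (fun b => Odd ((Y \ U).filter (fun v => b ∉ E v ∧
          ∀ u ∈ U, G.Adj u v → s u v ≠ b)).card))

/-- PROMH (from PROM1H): all spots, compare `kr.Stmt_PROM`, proof `kr_helper31`. For the spots which
are not in `shU d Ys U` put `D = ∅`. -/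
def Stmt_PROMH : Prop :=
  ∀ (δ π θ η' : ℝ), 0 < δ → δ ≤ 1 / 1000 → 1 / 4 ≤ π → π < 1 / 3 → 0 < θ → θ ≤ 1 / 100 →
    0 < η' → η' ≤ 1 / 1000 → ∃ d0 : ℕ,
    ∀ {V : Type u} [Fintype V] {k : ℕ} (η : ℝ) (G : SimpleGraph V) (d : ℕ)
      (Ys : Finset (Finset V)) (U : Finset V) (c0 tu cc cR : V → Fin k) (t : V → V → Fin k)
      (E : V → Finset (Fin k)) (K0 : Finset (Fin k)) (C : Fin 3 → Finset (Fin k)) (p : V → Fin 3)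
      (a : V → Bool) (Z : Finset V) (Dd : Finset V → Finset (Fin k)), d0 ≤ d → SpR θ η G d Ys →
      (∀ j, ((C j).card : ℝ) ≤ π * d + 1) →
      Out δ π G (Gex G Ys) ⊥ ⊥ d Ys ∅ c0 tu cc t E K0 C p a Z →
      RsH η' G Ys d U cR cc E K0 →
      (∀ Y ∈ shU d Ys U, Dd Y ⊆ K0 ∧ (Dd Y).card ≤ 2 ∧ Disjoint (Dd Y) ((Y ∩ U).image cR) ∧
        ParK (Dd Y) (odd Y E K0)) →
      ∃ (t2 : V → V → Fin k) (E2 : V → Finset (Fin k)),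
        Out (δ + 2 * η') π G (Gex G (Ys2 Ys U)) ⊥ ⊥ d (Ys2 Ys U) ∅ c0 tu (cc2 U cR cc) t2 E2 K0 C
          p a Z ∧
        (∀ v w, ¬ Same Ys v w → t2 v w = t v w) ∧
        (∀ v, InS Ys v → v ∉ U → E v ⊆ E2 v) ∧
        (∀ Y ∈ Ys, ∀ b, (((Y \ U).filter (fun v => b ∈ E2 v ∧ b ∉ E v)).card ≤ (Y ∩ U).card)) ∧
        ∀ Y ∈ shU d Ys U, ParK (Dd Y ∪ (Y ∩ U).image cR) (odd (Y \ U) E2 K0)

/-! ## Parities -/

/-- PARH: repair of the parities by the edges between different spots. PROOF. `|odd Y E K0|` is even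
(`Ed`, `Gin` has an even sum of degrees in `Y`), so `ParK (Dd Y) (odd Y E K0)` fails iff
`|Dd Y| = 2` and `odd Y E K0 = Dd Y`; then (`HP`) there is an edge `v w`, `v ∈ Y`, `w` in another spot
`Y''`. One spot `Y` after the other: give `v w` a new colour `g ∈ K0`, not in `E v ∪ E w`,
`C (p v) ∪ C (p w)`, different from `cR v`, `cR w`, not the unique colour for which `Y''` becomes bad, and
with fewer than `s d - 1` new occurrences in `Y` and `Y''` (there are at most `η d |Y''| + 1` changes at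
`Y''`). -/
def Stmt_PARH : Prop :=
  ∀ (δ π s : ℝ), 0 < δ → δ ≤ 1 / 1000 → 1 / 4 ≤ π → π < 1 / 3 → 0 < s → s ≤ 1 →
    ∃ (η : ℝ) (d0 : ℕ), 0 < η ∧
    ∀ {V : Type u} [Fintype V] {k : ℕ} (θ η' : ℝ) (G : SimpleGraph V) (d : ℕ)
      (Ys : Finset (Finset V)) (U : Finset V) (c0 tu cc cR : V → Fin k) (t : V → V → Fin k)
      (E : V → Finset (Fin k)) (K0 : Finset (Fin k)) (C : Fin 3 → Finset (Fin k)) (p : V → Fin 3)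
      (a : V → Bool) (Z : Finset V) (Dd : Finset V → Finset (Fin k)), d0 ≤ d → θ ≤ 1 / 100 →
      SpR θ η G d Ys → (∀ j, ((C j).card : ℝ) ≤ π * d + 1) →
      Out δ π G (Gex G Ys) ⊥ ⊥ d Ys ∅ c0 tu cc t E K0 C p a Z →
      RsH η' G Ys d U cR cc E K0 →
      (∀ Y ∈ Ys, Dd Y ⊆ K0 ∧ (Dd Y).card ≤ 2) →
      (∀ Y ∈ Ys, (Dd Y).card = 2 → (∀ v ∈ Y, ∀ w, InS Ys w → w ∉ Y → ¬ G.Adj v w) →
        odd Y E K0 ≠ Dd Y) →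
      ∃ (t' : V → V → Fin k) (E' : V → Finset (Fin k)),
        Out (δ + s) π G (Gex G Ys) ⊥ ⊥ d Ys ∅ c0 tu cc t' E' K0 C p a Z ∧
        RsH η' G Ys d U cR cc E' K0 ∧
        (∀ v w, ¬ (InS Ys v ∧ InS Ys w) → t' v w = t v w) ∧
        (∀ Y ∈ Ys, ∀ b, ((Y.filter (fun v => b ∈ E' v ∧ b ∉ E v)).card : ℝ) ≤ s * d) ∧
        ∀ Y ∈ Ys, ParK (Dd Y) (odd Y E' K0)

/-! ## The theorem -/

/-- KRH (from SSE3, PARH, PROMH, FINRH; compare `kr_helper23/KR.lean`). `U` = reserved vertices and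
`W` in the spots. -/
def Stmt_KRH : Prop :=
  ∃ (π θ : ℝ), 1 / 4 ≤ π ∧ π < 1 / 3 ∧ 0 < θ ∧ θ ≤ 1 / 100 ∧
    ∀ ζ : ℝ, 0 < ζ → ζ ≤ 1 → ∃ (δ e θ' η η' : ℝ) (d0 : ℕ), 0 < δ ∧ 0 < e ∧ 0 < θ' ∧ 0 < η ∧
      0 < η' ∧
    ∀ {V : Type u} [Fintype V] {k : ℕ} (τ : ℝ) (G : SimpleGraph V) (d : ℕ)
      (Ys : Finset (Finset V)) (Hs U W : Finset V) (c0 tu cc cR : V → Fin k)
      (t : V → V → Fin k) (E : V → Finset (Fin k)) (K0 : Finset (Fin k))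
      (C : Fin 3 → Finset (Fin k)) (p : V → Fin 3) (a : V → Bool) (Z : Finset V), d0 ≤ d →
      Grp θ θ' η G ⊥ d Ys ∅ Hs c0 tu →
      Out δ π G (Gxh G Ys Hs) (Grh G ⊥ Ys Hs) ⊥ d Ys ∅ c0 tu cc t E K0 C p a Z →
      (∀ j, ((C j).card : ℝ) ≤ π * d + 1) → OwnH ζ τ e G d Ys U W c0 cR cc →
      RsH η' G Ys d U cR cc E K0 →
      (∀ Y ∈ shU d Ys W, (Dead G W c0 K0 Y).card = 2 →
        (∀ v ∈ Y, ∀ w, InS Ys w → w ∉ Y → ¬ G.Adj v w) → odd Y E K0 ≠ Dead G W c0 K0 Y) →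
      ∃ (c' : V → Fin k) (t3 : V → V → Fin k), Tot G c' t3 ∧
        (∀ v, ¬ InS Ys v → c' v = cc v) ∧ (∀ v ∈ U, c' v = cR v) ∧
        ∀ v w, G.Adj v w → ¬ (InS Ys v ∧ InS Ys w) → t3 v w = t v w

end Pool.Agent.Work.MP_db9399_kh
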