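import Pool.Agent.Work.MP_db9399_hr.Interface
import Pool.Agent.Work.MP_db9399_x4.XF4

/-!
# MP_db9399, H-version: what has to be known about the pieces of type K (owner helper68)

`PosKH`: everything outside the pieces of type K is coloured. Changes compared with `PosX4`:
* the vertices of `Y.W` in pieces of type K are heavy (`X.Hv`), so all their edges to other pieces are
  coloured by the outside stage (`xt`, `xo`); own colour `Y.c0`: `cW`, `fW`, `oW`, `Uw`;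
* a piece is short if it has fewer than `d` vertices outside `Y.W` (`ShK`), so some pieces with `d` or
  `d + 1` vertices count as short;
* `dif`, `non` only for vertices outside `Y.W`, `hub` new: the own colour of a vertex with `τ d`
  neighbours in the short piece is not blocked by `Y.W` at many vertices;
* `par` new: short pieces with two dead colours and no edge to another piece of type K.
`KX5` (from `MP_db9399_kh.Stmt_KRH`).
-/

set_option autoImplicit false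

namespace Pool.Agent.Work.MP_db9399_kh

open Finset Classical
open Pool.Agent.Work.MP_db9399_all (nb)
open Pool.Agent.Work.MP_db9399_da
open Pool.Agent.Work.MP_db9399_xf
open Pool.Agent.Work.MP_db9399_hr (HX HXP TotHX)

universe u

section defs
variable {V : Type u} [Fintype V] {N J : ℕ}

/-- short pieces of type K -/
def ShK (d : ℕ) (X : XD V N J) (Y : HX V) (n : Fin N) : Prop :=
  X.P.ty n = Ty.K ∧ (pV X.P n \ Y.W).card < d

/-- vertices of the piece `n` with a neighbour in `Y.W` outside the piece, of own colour `b` -/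
noncomputable def ublX (G : SimpleGraph V) (X : XD V N J) (Y : HX V) (n : Fin N) (b : ℕ) :
    Finset V := (pV X.P n).filter (fun v => ∃ w ∈ Y.W, w ∉ pV X.P n ∧ G.Adj v w ∧ Y.c0 w = b)

/-- dead colours of the piece `n` (at most two, none or one if there are vertices of `Y.W` in the
piece) -/
noncomputable def DeadX (G : SimpleGraph V) (d : ℕ) (X : XD V N J) (Y : HX V) (n : Fin N) :
    Finset ℕ := (range (d + 2)).filter (fun b => 9 * (pV X.P n).card ≤ 10 * (ublX G X Y n b).card)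

/-- `b` is the own colour of a reserved vertex or of a vertex of `Y.W` in the piece `n` -/
def Res (X : XD V N J) (Y : HX V) (U : Finset V) (cR : V → ℕ) (n : Fin N) (b : ℕ) : Prop :=
  (∃ y ∈ U, X.P.pc y = n ∧ cR y = b) ∨ ∃ u ∈ Y.W, InT X Ty.K u ∧ X.P.pc u = n ∧ Y.c0 u = b

/-- Reserved vertices `U` of the short pieces of type K (light, so not in `Y.W`), own colour `cR`;
`O` = vertices which have got their own colour `c`. -/
structure RsvH (η' e : ℝ) (G : SimpleGraph V) (d : ℕ) (X : XD V N J) (Y : HX V)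
    (t : V → V → ℕ) (c : V → ℕ) (O : V → Prop) (U : Finset V) (cR : V → ℕ) : Prop where
  UK : ∀ y ∈ U, Lk X y ∧ ShK d X Y (X.P.pc y)
  Uc : ∀ n, X.P.ty n = Ty.K → ((pV X.P n ∩ U).card : ℝ) ≤ η' * d
  Ui : ∀ y ∈ U, ∀ y' ∈ U, X.P.pc y = X.P.pc y' → cR y = cR y' → y = y'
  Ua : ∀ y ∈ U, ∀ y' ∈ U, G.Adj y y' → cR y ≠ cR y'
  Uw : ∀ y ∈ U, ∀ u ∈ Y.W, InT X Ty.K u → (X.P.pc y = X.P.pc u ∨ G.Adj y u) → cR y ≠ Y.c0 u
  Ul : ∀ y ∈ U, cR y < d + 2
  Uf : ∀ y ∈ U, cR y ∉ Ft (xt G X) t y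
  Uo : ∀ y ∈ U, ∀ w, O w → G.Adj y w → c w ≠ cR y
  Ub : ∀ n, ShK d X Y n → ∀ b, ¬ Res X Y U cR n b →
    ((∑ y ∈ U.filter (fun y => X.P.pc y ≠ n ∧ cR y = b), (nb G y ∩ pV X.P n).card : ℕ) : ℝ) ≤
      e * d

/-- The situation before the pieces of type K: everything else is coloured. -/
structure PosKH (η η' τ e z : ℝ) (G : SimpleGraph V) (d : ℕ) (X : XD V N J) (A : PalX)
    (Y : HX V) (t : V → V → ℕ) (c : V → ℕ) (U : Finset V) (cR : V → ℕ) : Prop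
    extends RsvH η' e G d X Y t c (fun v => ¬ InT X Ty.K v) U cR where
  sym : ∀ v w, t v w = t w v
  lt : ∀ v w, (xo G X).Adj v w → t v w < d + 2
  inj : ∀ v, Set.InjOn (t v) (nb (xo G X) v : Set V)
  clt : ∀ v, ¬ InT X Ty.K v → c v < d + 2
  cc : ∀ v w, ¬ InT X Ty.K v → ¬ InT X Ty.K w → G.Adj v w → c v ≠ c w
  ct : ∀ v, ¬ InT X Ty.K v → c v ∉ Ft (xo G X) t v
  rK : ∀ v, Lk X v → Disjoint (Ft (xo G X) t v) (A.C (X.P.th v))
  lK : ∀ n, X.P.ty n = Ty.K → ∀ b, (((pV X.P n).filter (fun v => v ∉ X.Hv ∧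
    b ∈ Ft (xo G X) t v)).card : ℝ) ≤ η * d
  -- the precoloured matching
  cW : ∀ u ∈ Y.W, ¬ InT X Ty.K u → c u = Y.c0 u
  tW : ∀ u ∈ Y.W, t u (Y.pt u) = Y.t0 u
  fW : ∀ u ∈ Y.W, InT X Ty.K u → Y.c0 u ∉ Ft (xo G X) t u
  oW : ∀ u ∈ Y.W, InT X Ty.K u → ∀ w, ¬ InT X Ty.K w → G.Adj u w → c w ≠ Y.c0 u
  -- own colours outside
  dif : ∀ n, ShK d X Y n → ∀ w w', ¬ InT X Ty.K w → ¬ InT X Ty.K w' → w ∉ Y.W → w' ∉ Y.W →
    w ≠ w' → τ * d ≤ ((nb G w ∩ pV X.P n).card : ℝ) → τ * d ≤ ((nb G w' ∩ pV X.P n).card : ℝ) →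
    c w ≠ c w'
  hub : ∀ n, ShK d X Y n → ∀ w, ¬ InT X Ty.K w → w ∉ Y.W →
    τ * d ≤ ((nb G w ∩ pV X.P n).card : ℝ) →
    ((ublX G X Y n (c w)).card : ℝ) ≤ z / 4 * (pV X.P n).card
  non : ∀ n, ShK d X Y n → ∀ b, ¬ Res X Y U cR n b →
    ((∑ w ∈ univ.filter (fun w => ¬ InT X Ty.K w ∧ w ∉ Y.W ∧ c w = b ∧
      ((nb G w ∩ pV X.P n).card : ℝ) < τ * d), (nb G w ∩ pV X.P n).card : ℕ) : ℝ) ≤ e * d
  -- parities
  par : ∀ n, ShK d X Y n → (DeadX G d X Y n).card = 2 →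
    (∀ v ∈ pV X.P n, ∀ w, InT X Ty.K w → G.Adj v w → X.P.pc w = n) →
    ∃ b < d + 2, ¬ (b ∈ DeadX G d X Y n ↔
      Odd ((pV X.P n).filter (fun v => b ∉ Ft (xo G X) t v)).card)

end defs

/-- KX5 (from KRH): all pieces of type K are finished. `spc`: two vertices of `Y.W` in the same piece
have different own colours. -/
def Stmt_KX5 : Prop :=
  ∃ (πk θk : ℝ), 1 / 4 ≤ πk ∧ πk < 1 / 3 ∧ 0 < θk ∧ θk ≤ 1 / 100 ∧
    ∀ z : ℝ, 0 < z → z ≤ 1 → ∃ (θ' η e η' : ℝ) (d0 : ℕ), 0 < θ' ∧ θ' ≤ z / 100 ∧ 0 < η ∧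
      η ≤ z / 100 ∧ 0 < e ∧ e ≤ z / 4 ∧ 0 < η' ∧
    ∀ (C g τ a : ℝ) (M J : ℕ) (S : Fin J → Scl) {V : Type u} [Fintype V] {N : ℕ}
      (G : SimpleGraph V) (d : ℕ) (X : XD V N J) (A : PalX) (Y : HX V) (t : V → V → ℕ) (c : V → ℕ)
      (U : Finset V) (cR : V → ℕ),
      d0 ≤ d → PcX C g z θk θ' η a M S G d X → PalXP πk A d → HXP G d Y →
      (∀ u ∈ Y.Z, u ∈ X.P.V0) → (∀ u ∈ Y.W, InT X Ty.K u → u ∈ X.Hv) →
      (∀ u ∈ Y.W, ∀ w ∈ Y.W, InT X Ty.K u → InT X Ty.K w → X.P.pc u = X.P.pc w → u ≠ w →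
        Y.c0 u ≠ Y.c0 w) →
      PosKH η η' τ e z G d X A Y t c U cR →
      ∃ (c1 : V → ℕ) (t1 : V → V → ℕ), TotHX d G Y c1 t1

end Pool.Agent.Work.MP_db9399_kh
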